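import Pool.Agent.Y343.LB.Ind

/-!
The cohomology in degrees `0` and `1` of the twisted induced representation.
-/

set_option autoImplicit false

namespace Pool.Agent.Y343.LB

open CategoryTheory Representation

noncomputable section

variable {G : Type} [Group G]

theorem h1_sub (A : Rep.{0} ℂ G) : Subsingleton (groupCohomology A 1) ↔
    ∀ c : G → A.V, (∀ g h, c (g * h) = A.ρ g (c h) + c g) →
      ∃ x : A.V, ∀ g, c g = A.ρ g x - x := by
  constructor
  · intro h c hc
    have hc' : c ∈ groupCohomology.cocycles₁ A := (groupCohomology.mem_cocycles₁_iff c).2 hc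
    have h1 : groupCohomology.H1π A ⟨c, hc'⟩ = 0 := Subsingleton.elim _ _
    rw [groupCohomology.H1π_eq_zero_iff] at h1
    obtain ⟨x, hx⟩ := h1
    refine ⟨x, fun g => ?_⟩
    exact (congrFun hx g).symm
  · intro h
    refine subsingleton_of_forall_eq 0 (fun y => ?_)
    induction y using groupCohomology.H1_induction_on with
    | h c =>
      rw [groupCohomology.H1π_eq_zero_iff]
      obtain ⟨x, hx⟩ := h c.1 ((groupCohomology.mem_cocycles₁_iff _).1 c.2)
      exact ⟨x, funext fun g => (hx g).symm⟩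

theorem h0_sub (A : Rep.{0} ℂ G) (h : ∀ x : A.V, (∀ g, A.ρ g x = x) → x = 0) :
    Subsingleton (groupCohomology A 0) := by
  have e := (groupCohomology.H0Iso A).toLinearEquiv
  refine e.toEquiv.subsingleton_congr.2 ?_
  refine subsingleton_of_forall_eq 0 (fun x => ?_)
  exact Subtype.ext (h x.1 x.2)

variable (S : Subgroup G) (w : G →* ℤˣ)

/-- the twisted embedding -/
def Psi (v : IV S) : G → ℂ := fun x => sgn w x * Phi S v x

theorem Psi_inj (v : IV S) (h : Psi S w v = 0) : v = 0 := by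
  refine Phi_inj S v (funext fun x => ?_)
  have h1 : sgn w x * Phi S v x = 0 := congrFun h x
  calc Phi S v x = sgn w x * (sgn w x * Phi S v x) := by rw [← mul_assoc, sgn_sq, one_mul]
    _ = 0 := by rw [h1, mul_zero]

theorem Psi_sub (u v : IV S) : Psi S w (u - v) = Psi S w u - Psi S w v := by
  funext x
  simp [Psi, mul_sub]

theorem Psi_add (u v : IV S) (x : G) : Psi S w (u + v) x = Psi S w u x + Psi S w v x := by
  simp [Psi, mul_add]

theorem Psi_rho (g : G) (v : IV S) (x : G) :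
    Psi S w (sgn w g • ind S.subtype (reg S) g v) x = Psi S w v (g⁻¹ * x) := by
  unfold Psi
  rw [map_smul, Pi.smul_apply, Phi_ind, sgn_mul, sgn_inv, smul_eq_mul]
  ring

theorem norm_sgn (g : G) : ‖sgn w g‖ = 1 := by
  have h := congrArg (fun z : ℂ => ‖z‖) (sgn_sq w g)
  simp only [norm_mul, norm_one] at h
  nlinarith [norm_nonneg (sgn w g)]

theorem FS_sgn (ξ : G → ℂ) (h : FS S ξ) : FS S (fun x => sgn w x * ξ x) := by
  refine h.subset ?_
  rintro C ⟨x, hx, h⟩
  exact ⟨x, hx, fun h' => h (by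
    show sgn w x * ξ x = 0
    rw [h', mul_zero])⟩

theorem Psi_FS (v : IV S) : FS S (Psi S w v) := FS_sgn S w _ (Phi_FS S v)

theorem Psi_coset (v : IV S) (g : G) : (fun s : S => Psi S w v (g * s)) ∈ l2 S := by
  have h := Phi_coset S v g
  rw [mem_l2] at h ⊢
  convert h using 2 with s
  show ‖sgn w (g * s) * Phi S v (g * s)‖ ^ 2 = _
  rw [norm_mul, norm_sgn, one_mul]

theorem Psi_l2 (v : IV S) : Psi S w v ∈ l2 G := by
  have h := Phi_l2 S v
  rw [mem_l2] at h ⊢
  convert h using 2 with x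
  show ‖sgn w x * Phi S v x‖ ^ 2 = _
  rw [norm_mul, norm_sgn, one_mul]

theorem Psi_range (ξ : G → ℂ) (h1 : FS S ξ) (h2 : ∀ g : G, (fun s : S => ξ (g * s)) ∈ l2 S) :
    ∃ v : IV S, Psi S w v = ξ := by
  obtain ⟨v, hv⟩ := Phi_range S (fun x => sgn w x * ξ x) (FS_sgn S w ξ h1) (fun g => by
    have h := h2 g
    rw [mem_l2] at h ⊢
    convert h using 2 with x
    rw [norm_mul, norm_sgn, one_mul])
  refine ⟨v, funext fun x => ?_⟩
  show sgn w x * Phi S v x = ξ x
  rw [hv, ← mul_assoc, sgn_sq, one_mul]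

/-- twisted cocycles with values in the induced module -/
def Coc (c : G → IV S) : Prop :=
  ∀ g h, c (g * h) = sgn w g • ind S.subtype (reg S) g (c h) + c g

/-- twisted coboundaries -/
def Cob (c : G → IV S) : Prop :=
  ∃ v : IV S, ∀ g, c g = sgn w g • ind S.subtype (reg S) g v - v

theorem cob_of {c : G → IV S} (ξ : G → ℂ)
    (hb : ∀ g x, Psi S w (c g) x = ξ (g⁻¹ * x) - ξ x) (h1 : FS S ξ)
    (h2 : ∀ g : G, (fun s : S => ξ (g * s)) ∈ l2 S) : Cob S w c := by
  obtain ⟨v, hv⟩ := Psi_range S w ξ h1 h2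
  refine ⟨v, fun g => ?_⟩
  rw [← sub_eq_zero]
  refine Psi_inj S w _ ?_
  rw [Psi_sub, Psi_sub]
  funext x
  show Psi S w (c g) x - (Psi S w (sgn w g • ind S.subtype (reg S) g v) x - Psi S w v x) = 0
  rw [hb, Psi_rho, hv, sub_self]

theorem h1_ind : Subsingleton (groupCohomology (twist w (Rep.ind S.subtype (l2Rep S))) 1) ↔
    ∀ c : G → IV S, Coc S w c → Cob S w c := by
  rw [h1_sub]
  exact Iff.rfl

theorem coc_psi {c : G → IV S} (hc : Coc S w c) (g h x : G) :
    Psi S w (c (g * h)) x = Psi S w (c h) (g⁻¹ * x) + Psi S w (c g) x := by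
  rw [hc g h, Psi_add, Psi_rho]

/-- every cocycle is the coboundary of a function -/
theorem coc_fun {c : G → IV S} (hc : Coc S w c) (g x : G) :
    Psi S w (c g) x = (- Psi S w (c (g⁻¹ * x)) (g⁻¹ * x)) - (- Psi S w (c x) x) := by
  have h := coc_psi S w hc g (g⁻¹ * x) x
  rw [mul_inv_cancel_left] at h
  rw [h]
  ring

theorem l2_C0 {X : Type} {ξ : X → ℂ} (h : ξ ∈ l2 X) : C0 ξ := by
  intro b hb
  have h1 := (mem_l2.1 h).tendsto_cofinite_zero
  have h2 := h1.eventually (gt_mem_nhds (show (0 : ℝ) < b ^ 2 by positivity))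
  rw [Filter.eventually_cofinite] at h2
  refine h2.subset ?_
  intro x hx
  show ¬ (‖ξ x‖ ^ 2 < b ^ 2)
  have hx' : b ≤ ‖ξ x‖ := hx
  have : b ^ 2 ≤ ‖ξ x‖ ^ 2 := by gcongr
  linarith

theorem l2_coset {ξ : G → ℂ} (h : ξ ∈ l2 G) (g : G) : (fun s : S => ξ (g * s)) ∈ l2 S := by
  rw [mem_l2] at h ⊢
  exact h.comp_injective (i := fun s : S => g * (s : G)) (fun s t hst =>
    Subtype.ext (mul_left_cancel hst))

/-- **First embedding.** If `H^1(G; ℓ²G) = 0` then `H^1(G; Ind ℓ²S) = 0`. -/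
theorem van1 (hG : Group.FG G) (h : Subsingleton (groupCohomology (l2Rep G) 1)) :
    Subsingleton (groupCohomology (twist w (Rep.ind S.subtype (l2Rep S))) 1) := by
  rw [h1_ind]
  intro c hc
  rw [h1_sub] at h
  obtain ⟨ξ, hξ⟩ := h (fun g => ⟨Psi S w (c g), Psi_l2 S w (c g)⟩) (fun g h => by
    apply Subtype.ext
    funext x
    exact coc_psi S w hc g h x)
  have hb : ∀ g x, Psi S w (c g) x = ξ.1 (g⁻¹ * x) - ξ.1 x := by
    intro g x
    have := congrArg (fun f : l2 G => f.1 x) (hξ g)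
    exact this
  refine cob_of S w ξ.1 hb (key S hG ξ.1 (l2_C0 ξ.2) ?_) (fun g => l2_coset S ξ.2 g)
  intro g
  have h1 := Psi_FS S w (c g)
  rwa [show Psi S w (c g) = fun x => ξ.1 (g⁻¹ * x) - ξ.1 x from funext (hb g)] at h1

/-- if `S` is infinite: `H^1(S; ℓ²S) = 0` implies `H^1(G; Ind ℓ²S) = 0` -/
theorem van2 [Infinite S] (hG : Group.FG G) (hone : OneEnded G)
    (h : Subsingleton (groupCohomology (l2Rep S) 1)) :
    Subsingleton (groupCohomology (twist w (Rep.ind S.subtype (l2Rep S))) 1) := by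
  rw [h1_ind]
  intro c hc
  rw [h1_sub] at h
  obtain ⟨η, hη⟩ := h (fun s => ⟨fun t : S => Psi S w (c s) (t : G), by
      have := Psi_coset S w (c s) 1
      simpa only [one_mul] using this⟩) (fun g h => by
    apply Subtype.ext
    funext x
    exact coc_psi S w hc g h x)
  have hη' : ∀ s t : S, Psi S w (c s) t = η.1 (s⁻¹ * t) - η.1 t := by
    intro s t
    have := congrArg (fun f : l2 S => f.1 t) (hη s)
    exact this
  let ξ : G → ℂ := fun x => - Psi S w (c x) x + η.1 1
  have hb : ∀ g x, Psi S w (c g) x = ξ (g⁻¹ * x) - ξ x := by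
    intro g x
    rw [coc_fun S w hc g x]
    simp only [ξ]
    ring
  have hξS : ∀ s : S, ξ s = η.1 s := by
    intro s
    have h1 := hη' s s
    rw [inv_mul_cancel] at h1
    show - Psi S w (c s) s + η.1 1 = η.1 s
    rw [h1]
    ring
  have hcos : ∀ g : G, (fun s : S => ξ (g * s)) ∈ l2 S := by
    intro g
    have h1 : (fun s : S => ξ (g * s)) =
        (fun s : S => η.1 s) + (fun s : S => Psi S w (c g⁻¹) (1 * s)) := by
      funext s
      have h2 := hb g⁻¹ (s : G)
      rw [inv_inv] at h2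
      show ξ (g * s) = η.1 s + Psi S w (c g⁻¹) (1 * s)
      rw [one_mul, h2, hξS]
      ring
    rw [h1]
    exact (l2 S).add_mem η.2 (Psi_coset S w (c g⁻¹) 1)
  refine cob_of S w ξ hb (key2 S hG hone ξ (fun g => l2_C0 (hcos g)) ?_) hcos
  intro g
  have h1 := Psi_FS S w (c g)
  rwa [show Psi S w (c g) = fun x => ξ (g⁻¹ * x) - ξ x from funext (hb g)] at h1

end

end Pool.Agent.Y343.LB
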