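import Pool.Agent.Y343.LB.Fun

/-!
Square-summable functions on a group, twisted representations, Poincare duality.
-/

set_option autoImplicit false

namespace Pool.Agent.Y343.LB

open CategoryTheory Representation

noncomputable section

/-- `ℓ²(Γ)`: the square-summable functions on `Γ` -/
def l2 (Γ : Type) : Submodule ℂ (Γ → ℂ) where
  carrier := {f | Summable fun x => ‖f x‖ ^ 2}
  zero_mem' := by
    show Summable fun x : Γ => ‖(0 : Γ → ℂ) x‖ ^ 2
    simp only [Pi.zero_apply, norm_zero, ne_eq, OfNat.ofNat_ne_zero, not_false_eq_true, zero_pow]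
    exact summable_zero
  add_mem' := by
    intro f g hf hg
    show Summable fun x : Γ => ‖(f + g) x‖ ^ 2
    refine Summable.of_nonneg_of_le (fun x => by positivity) (fun x => ?_)
      ((hf.mul_left 2).add (hg.mul_left 2))
    have h1 : ‖f x + g x‖ ≤ ‖f x‖ + ‖g x‖ := norm_add_le _ _
    have h2 : 0 ≤ ‖f x + g x‖ := norm_nonneg _
    have h3 : ‖(f + g) x‖ = ‖f x + g x‖ := rfl
    rw [h3]
    nlinarith [sq_nonneg (‖f x‖ - ‖g x‖)]
  smul_mem' := by
    intro c f hf
    show Summable fun x : Γ => ‖(c • f) x‖ ^ 2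
    have h : ∀ x, ‖(c • f) x‖ ^ 2 = ‖c‖ ^ 2 * ‖f x‖ ^ 2 := by
      intro x
      rw [Pi.smul_apply, norm_smul, mul_pow]
    simp only [h]
    exact hf.mul_left _

theorem mem_l2 {Γ : Type} {f : Γ → ℂ} : f ∈ l2 Γ ↔ Summable fun x => ‖f x‖ ^ 2 := Iff.rfl

/-- The regular representation of `Γ` on `ℓ²(Γ)`: `(g f)(x) = f (g⁻¹ x)`. -/
def reg (Γ : Type) [Group Γ] : Representation ℂ Γ (l2 Γ) where
  toFun g :=
    { toFun := fun f => ⟨fun x => f.1 (g⁻¹ * x),
        (Equiv.mulLeft g⁻¹).summable_iff (f := fun x => ‖f.1 x‖ ^ 2) |>.2 f.2⟩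
      map_add' := fun _ _ => rfl
      map_smul' := fun _ _ => rfl }
  map_one' := by
    ext f x
    show f.1 (1⁻¹ * x) = f.1 x
    rw [inv_one, one_mul]
  map_mul' g h := by
    ext f x
    show f.1 ((g * h)⁻¹ * x) = f.1 (h⁻¹ * (g⁻¹ * x))
    rw [mul_inv_rev, mul_assoc]

/-- `ℓ²(Γ)` as an object of the category of representations of `Γ` -/
abbrev l2Rep (Γ : Type) [Group Γ] : Rep.{0} ℂ Γ := Rep.of (reg Γ)

theorem reg_apply {Γ : Type} [Group Γ] (g : Γ) (f : l2 Γ) (x : Γ) :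
    (reg Γ g f).1 x = f.1 (g⁻¹ * x) := rfl

/-- the sign `w g` as a complex number -/
def sgn {G : Type} [Group G] (w : G →* ℤˣ) (g : G) : ℂ := ((w g : ℤ) : ℂ)

theorem sgn_one {G : Type} [Group G] (w : G →* ℤˣ) : sgn w 1 = 1 := by
  simp [sgn]

theorem sgn_mul {G : Type} [Group G] (w : G →* ℤˣ) (g h : G) :
    sgn w (g * h) = sgn w g * sgn w h := by
  simp [sgn]

theorem sgn_sq {G : Type} [Group G] (w : G →* ℤˣ) (g : G) : sgn w g * sgn w g = 1 := by
  unfold sgn
  rw [← Int.cast_mul]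
  have : ((w g : ℤ)) * (w g : ℤ) = 1 := by
    rw [← Units.val_mul, ← sq, Int.units_sq]
    rfl
  rw [this]
  simp

theorem sgn_inv {G : Type} [Group G] (w : G →* ℤˣ) (g : G) : sgn w g⁻¹ = sgn w g := by
  have h1 : sgn w g * sgn w g⁻¹ = 1 := by
    rw [← sgn_mul, mul_inv_cancel, sgn_one]
  calc sgn w g⁻¹ = (sgn w g * sgn w g) * sgn w g⁻¹ := by rw [sgn_sq, one_mul]
    _ = sgn w g := by rw [mul_assoc, h1, mul_one]

/-- The twist of a representation by the orientation character `w : G → {±1}`. -/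
def twist {G : Type} [Group G] (w : G →* ℤˣ) (M : Rep.{0} ℂ G) : Rep.{0} ℂ G :=
  Rep.of (X := M.V) (
    { toFun := fun g => sgn w g • M.ρ g
      map_one' := by rw [sgn_one, one_smul, map_one]
      map_mul' := fun g h => by
        rw [sgn_mul, map_mul, smul_mul_smul_comm] } : Representation ℂ G M.V)

theorem twist_apply {G : Type} [Group G] (w : G →* ℤˣ) (M : Rep.{0} ℂ G) (g : G) (v : M.V) :
    (twist w M).ρ g v = sgn w g • M.ρ g v := rfl

/-- Poincare duality over `ℂ` in dimension `n` with orientation character `w`: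
`H_{n-i}(G; M) ≅ H^i(G; M ⊗ ℂ_w)` for `0 ≤ i ≤ n` and every `ℂ[G]`-module `M`, and
`H_j(G; M) = 0` for `j > n`. -/
def Duality (G : Type) [Group G] (n : ℕ) (w : G →* ℤˣ) : Prop :=
  (∀ (M : Rep.{0} ℂ G) (i : ℕ), i ≤ n →
    Nonempty (groupHomology M (n - i) ≅ groupCohomology (twist w M) i)) ∧
  ∀ (M : Rep.{0} ℂ G) (j : ℕ), n < j → Subsingleton (groupHomology M j)

end

end Pool.Agent.Y343.LB
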