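import Mathlib

/-!
Functions on a group whose translates differ from them only on finitely many cosets.
-/

set_option autoImplicit false

namespace Pool.Agent.Y343.LB

variable {G : Type} [Group G]

/-- `ξ` tends to zero at infinity. -/
def C0 {X : Type} (ξ : X → ℂ) : Prop := ∀ b : ℝ, 0 < b → {x | b ≤ ‖ξ x‖}.Finite

/-- `ξ` is supported on finitely many left cosets of `S`. -/
def FS (S : Subgroup G) (ξ : G → ℂ) : Prop :=
  {C : G ⧸ S | ∃ x : G, (x : G ⧸ S) = C ∧ ξ x ≠ 0}.Finite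

/-- the set `A` is almost invariant under left translations -/
def AlmostInv (A : Set G) : Prop := ∀ g : G, {x | ¬ (g⁻¹ * x ∈ A ↔ x ∈ A)}.Finite

/-- every almost invariant set is finite or cofinite -/
def OneEnded (G : Type) [Group G] : Prop := ∀ A : Set G, AlmostInv A → A.Finite ∨ Aᶜ.Finite

theorem FS.add {S : Subgroup G} {ξ η : G → ℂ} (h1 : FS S ξ) (h2 : FS S η) :
    FS S (fun x => ξ x + η x) := by
  refine (h1.union h2).subset ?_
  rintro C ⟨x, hx, h⟩
  by_cases h' : ξ x = 0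
  · right
    refine ⟨x, hx, fun h'' => h ?_⟩
    show ξ x + η x = 0
    rw [h', h'', add_zero]
  · left
    exact ⟨x, hx, h'⟩

theorem FS.shift {S : Subgroup G} {ξ : G → ℂ} (h1 : FS S ξ) (g : G) :
    FS S (fun x => ξ (g⁻¹ * x)) := by
  refine (h1.image (fun C => g • C)).subset ?_
  rintro C ⟨x, hx, h⟩
  refine ⟨((g⁻¹ * x : G) : G ⧸ S), ⟨_, rfl, h⟩, ?_⟩
  subst hx
  show ((g * (g⁻¹ * x) : G) : G ⧸ S) = _
  rw [mul_inv_cancel_left]

theorem fs_bot_iff (ξ : G → ℂ) : FS (⊥ : Subgroup G) ξ ↔ {x | ξ x ≠ 0}.Finite := by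
  constructor
  · intro h
    refine Set.Finite.of_finite_image (h.subset ?_) (f := fun x : G => (x : G ⧸ (⊥ : Subgroup G)))
      ?_
    · rintro C ⟨x, hx, rfl⟩
      exact ⟨x, rfl, hx⟩
    · intro x _ y _ hxy
      have := QuotientGroup.eq.1 hxy
      rw [Subgroup.mem_bot] at this
      exact (inv_mul_eq_one.1 this)
  · intro h
    refine (h.image (fun x : G => (x : G ⧸ (⊥ : Subgroup G)))).subset ?_
    rintro C ⟨x, rfl, hx⟩
    exact ⟨x, hx, rfl⟩

/-- finite support implies finitely many cosets -/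
theorem FS.of_finite {S : Subgroup G} {ξ : G → ℂ} (h : {x | ξ x ≠ 0}.Finite) : FS S ξ := by
  refine (h.image (fun x : G => (x : G ⧸ S))).subset ?_
  rintro C ⟨x, rfl, hx⟩
  exact ⟨x, hx, rfl⟩

/-- if `S` is finite, finitely many cosets means finite support -/
theorem FS.finite {S : Subgroup G} [Finite S] {ξ : G → ℂ} (h : FS S ξ) :
    {x | ξ x ≠ 0}.Finite := by
  have h1 : ({x | ξ x ≠ 0} : Set G) ⊆
      ⋃ C ∈ {C : G ⧸ S | ∃ x : G, (x : G ⧸ S) = C ∧ ξ x ≠ 0}, {x : G | (x : G ⧸ S) = C} := by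
    intro x hx
    simp only [Set.mem_iUnion]
    exact ⟨(x : G ⧸ S), ⟨x, rfl, hx⟩, rfl⟩
  refine (Set.Finite.biUnion h ?_).subset h1
  rintro C ⟨y, rfl, -⟩
  refine (Set.finite_range (fun s : S => y * (s : G))).subset ?_
  intro x hx
  refine ⟨⟨y⁻¹ * x, QuotientGroup.eq.1 (Eq.symm hx)⟩, ?_⟩
  simp

/-- a finite set of cosets that is closed under a generating set is everything or empty -/
theorem closed_univ {S : Subgroup G} (T : Set G) (hT : Subgroup.closure T = ⊤)
    (W : Set (G ⧸ S)) (hW : W.Finite) (hcl : ∀ C ∈ W, ∀ t ∈ T, t • C ∈ W) (C : G ⧸ S)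
    (hC : C ∈ W) : W = Set.univ := by
  have key : ∀ g : G, ∀ D, D ∈ W ↔ g • D ∈ W := by
    intro g
    have hg : g ∈ Subgroup.closure T := by rw [hT]; trivial
    induction hg using Subgroup.closure_induction with
    | mem t ht =>
      intro D
      refine ⟨fun h => hcl D h t ht, fun h => ?_⟩
      have himg : (fun C : G ⧸ S => t • C) '' W = W := by
        refine Set.eq_of_subset_of_ncard_le ?_ ?_ hW
        · rintro _ ⟨C, hC, rfl⟩
          exact hcl C hC t ht
        · rw [Set.ncard_image_of_injective _ (MulAction.injective t)]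
      have h' : t • D ∈ (fun C : G ⧸ S => t • C) '' W := by rw [himg]; exact h
      obtain ⟨D', hD', hEq⟩ := h'
      have : D' = D := MulAction.injective t hEq
      rwa [← this]
    | one => intro D; rw [one_smul]
    | mul a b _ _ ha hb =>
      intro D
      rw [mul_smul, ← ha, ← hb]
    | inv a _ ha =>
      intro D
      rw [ha (a⁻¹ • D), smul_inv_smul]
  ext D
  refine ⟨fun _ => trivial, fun _ => ?_⟩
  obtain ⟨g, rfl⟩ := MulAction.exists_smul_eq G C D
  exact (key g C).1 hC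

/-- a common threshold for finitely many cosets -/
theorem threshold (S : Subgroup G) (ξ : G → ℂ) (F : Set (G ⧸ S)) (hF : F.Finite) :
    ∃ b0 : ℝ, 0 < b0 ∧ ∀ D ∈ F, ∀ x : G, (x : G ⧸ S) = D → ξ x ≠ 0 →
      D ∈ {C : G ⧸ S | ∃ x : G, (x : G ⧸ S) = C ∧ b0 ≤ ‖ξ x‖} := by
  induction F, hF using Set.Finite.induction_on with
  | empty => exact ⟨1, one_pos, fun D hD => absurd hD (Set.notMem_empty D)⟩
  | @insert D F' _ _ ih =>
    obtain ⟨b1, hb1, h1⟩ := ih
    by_cases hex : ∃ x : G, (x : G ⧸ S) = D ∧ ξ x ≠ 0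
    · obtain ⟨x, hx, hx0⟩ := hex
      refine ⟨min b1 ‖ξ x‖, lt_min hb1 (norm_pos_iff.2 hx0), ?_⟩
      rintro E (rfl | hE) y hy hy0
      · exact ⟨x, hx, min_le_right _ _⟩
      · obtain ⟨z, hz, hz'⟩ := h1 E hE y hy hy0
        exact ⟨z, hz, (min_le_left _ _).trans hz'⟩
    · refine ⟨b1, hb1, ?_⟩
      rintro E (rfl | hE) y hy hy0
      · exact absurd ⟨y, hy, hy0⟩ hex
      · exact h1 E hE y hy hy0

/-- **Key lemma.** A function on a finitely generated group that tends to zero at infinity and is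
invariant under left translations up to functions supported on finitely many cosets is supported
on finitely many cosets. -/
theorem key (S : Subgroup G) (hG : Group.FG G) (ξ : G → ℂ) (h0 : C0 ξ)
    (hinv : ∀ g : G, FS S (fun x => ξ (g⁻¹ * x) - ξ x)) : FS S ξ := by
  obtain ⟨T, hT⟩ := hG.out
  -- the bad cosets
  let F : Set (G ⧸ S) := ⋃ t ∈ T,
    {C : G ⧸ S | ∃ x : G, (x : G ⧸ S) = C ∧ ξ ((t⁻¹)⁻¹ * x) - ξ x ≠ 0}
  have hF : F.Finite := by
    refine Set.Finite.biUnion T.finite_toSet ?_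
    intro t _
    exact hinv t⁻¹
  have hgood : ∀ x : G, (x : G ⧸ S) ∉ F → ∀ t ∈ T, ξ (t * x) = ξ x := by
    intro x hx t ht
    by_contra hne
    refine hx ?_
    simp only [F, Set.mem_iUnion]
    refine ⟨t, ht, x, rfl, ?_⟩
    rw [inv_inv]
    exact sub_ne_zero.2 hne
  -- the cosets with a value of size at least `b`
  let U : ℝ → Set (G ⧸ S) := fun b => {C | ∃ x : G, (x : G ⧸ S) = C ∧ b ≤ ‖ξ x‖}
  have hU : ∀ b, 0 < b → (U b).Finite := by
    intro b hb
    refine ((h0 b hb).image (fun x : G => (x : G ⧸ S))).subset ?_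
    rintro C ⟨x, rfl, hx⟩
    exact ⟨x, hx, rfl⟩
  -- a threshold for the bad cosets
  obtain ⟨b0, hb0, hthr⟩ : ∃ b0 : ℝ, 0 < b0 ∧ ∀ D ∈ F, ∀ x : G, (x : G ⧸ S) = D → ξ x ≠ 0 →
      D ∈ U b0 := by
    exact threshold S ξ F hF
  by_cases hfin : Finite (G ⧸ S)
  · exact Set.toFinite _
  have hUb : ∀ b, 0 < b → U b ⊆ U b0 := by
    intro b hb
    by_contra hnot
    obtain ⟨C, hC, hC'⟩ := Set.not_subset.1 hnot
    have huniv := closed_univ (T : Set G) hT (U b \ U b0) ((hU b hb).subset Set.sdiff_subset) ?_ C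
      ⟨hC, hC'⟩
    · apply hfin
      rw [← Set.finite_univ_iff, ← huniv]
      exact (hU b hb).subset Set.sdiff_subset
    · rintro D ⟨⟨x, rfl, hx⟩, hD'⟩ t ht
      have hDF : (x : G ⧸ S) ∉ F := by
        intro hDF
        refine hD' (hthr _ hDF x rfl ?_)
        intro h
        rw [h, norm_zero] at hx
        linarith
      refine ⟨⟨t * x, rfl, ?_⟩, ?_⟩
      · rw [hgood x hDF t ht]
        exact hx
      · rintro ⟨y, hy, hy'⟩
        refine hD' ⟨t⁻¹ * y, ?_, ?_⟩
        · have : ((t⁻¹ * y : G) : G ⧸ S) = t⁻¹ • (y : G ⧸ S) := rfl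
          rw [this, hy, inv_smul_smul]
        · have h1 : ((t⁻¹ * y : G) : G ⧸ S) = (x : G ⧸ S) := by
            have : ((t⁻¹ * y : G) : G ⧸ S) = t⁻¹ • (y : G ⧸ S) := rfl
            rw [this, hy, inv_smul_smul]
          have h2 := hgood (t⁻¹ * y) (by rw [h1]; exact hDF) t ht
          rw [mul_inv_cancel_left] at h2
          rw [← h2]
          exact hy'
  refine (hU b0 hb0).subset ?_
  rintro C ⟨x, hx, hx0⟩
  exact hUb ‖ξ x‖ (norm_pos_iff.2 hx0) ⟨x, hx, le_refl _⟩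

/-- **Second key lemma.** On a one-ended group: it is enough that `ξ` tends to zero at infinity on
every coset. -/
theorem key2 (S : Subgroup G) [Infinite S] (hG : Group.FG G) (h1 : OneEnded G) (ξ : G → ℂ)
    (h0 : ∀ g : G, C0 (fun s : S => ξ (g * s)))
    (hinv : ∀ g : G, FS S (fun x => ξ (g⁻¹ * x) - ξ x)) : FS S ξ := by
  refine key S hG ξ ?_ hinv
  intro b hb
  have hcos : ∀ C : G ⧸ S, {x : G | (x : G ⧸ S) = C ∧ b ≤ ‖ξ x‖}.Finite := by
    intro C
    obtain ⟨g, rfl⟩ := QuotientGroup.mk_surjective C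
    refine ((h0 g b hb).image (fun s : S => g * (s : G))).subset ?_
    rintro x ⟨hx, hx'⟩
    refine ⟨⟨g⁻¹ * x, QuotientGroup.eq.1 (Eq.symm hx)⟩, ?_, ?_⟩
    · simpa using hx'
    · simp
  have hai : AlmostInv {x : G | b ≤ ‖ξ x‖} := by
    intro g
    have h2 : {x : G | ¬ (g⁻¹ * x ∈ {x : G | b ≤ ‖ξ x‖} ↔ x ∈ {x : G | b ≤ ‖ξ x‖})} ⊆
        ⋃ C ∈ {C : G ⧸ S | ∃ x : G, (x : G ⧸ S) = C ∧ ξ (g⁻¹ * x) - ξ x ≠ 0},
          ((fun y => g * y) '' {x : G | (x : G ⧸ S) = g⁻¹ • C ∧ b ≤ ‖ξ x‖} ∪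
            {x : G | (x : G ⧸ S) = C ∧ b ≤ ‖ξ x‖}) := by
      intro x hx
      simp only [Set.mem_iUnion]
      refine ⟨(x : G ⧸ S), ⟨x, rfl, ?_⟩, ?_⟩
      · intro h
        apply hx
        rw [sub_eq_zero] at h
        simp only [Set.mem_ofPred_eq, h]
      · by_cases hb1 : b ≤ ‖ξ x‖
        · right
          exact ⟨rfl, hb1⟩
        · left
          refine ⟨g⁻¹ * x, ⟨rfl, ?_⟩, by simp⟩
          by_contra h3
          apply hx
          simp only [Set.mem_ofPred_eq]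
          tauto
    refine (Set.Finite.biUnion (hinv g) ?_).subset h2
    intro C _
    exact ((hcos _).image _).union (hcos C)
  rcases h1 _ hai with h | h
  · exact h
  · exfalso
    have h3 : (Set.univ : Set S) ⊆ {s : S | b ≤ ‖ξ (1 * (s : G))‖} ∪
        (fun s : S => (s : G)) ⁻¹' ({x : G | b ≤ ‖ξ x‖}ᶜ) := by
      intro s _
      by_cases hs : b ≤ ‖ξ s‖
      · left
        simpa using hs
      · right
        exact hs
    have h4 : (Set.univ : Set S).Finite :=
      ((h0 1 b hb).union (h.preimage Subtype.val_injective.injOn)).subset h3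
    exact Set.infinite_univ h4

end Pool.Agent.Y343.LB
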