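import Pool.Agent.Y343.LB.Defs

/-!
The induced representation of `ℓ²(S)` as the square-summable functions on `G` that are supported on
finitely many left cosets of `S`.
-/

set_option autoImplicit false

namespace Pool.Agent.Y343.LB

open CategoryTheory Representation

noncomputable section

open scoped Classical in
/-- extension by zero of a function on the subgroup -/
def extz {G : Type} [Group G] (S : Subgroup G) : (S → ℂ) →ₗ[ℂ] (G → ℂ) where
  toFun f := fun x => if hx : x ∈ S then f ⟨x, hx⟩ else 0
  map_add' f g := by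
    ext x
    by_cases hx : x ∈ S <;> simp [hx]
  map_smul' c f := by
    ext x
    by_cases hx : x ∈ S <;> simp [hx]

variable {G : Type} [Group G] (S : Subgroup G)

theorem extz_mem (f : S → ℂ) {x : G} (hx : x ∈ S) : extz S f x = f ⟨x, hx⟩ := by
  simp [extz, hx]

theorem extz_not_mem (f : S → ℂ) {x : G} (hx : x ∉ S) : extz S f x = 0 := by
  simp [extz, hx]

/-- all functions on `G` with the left translations -/
def funRep (G : Type) [Group G] : Representation ℂ G (G → ℂ) where
  toFun g :=
    { toFun := fun f => fun x => f (g⁻¹ * x)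
      map_add' := fun _ _ => rfl
      map_smul' := fun _ _ => rfl }
  map_one' := by
    ext f x
    show f (1⁻¹ * x) = f x
    rw [inv_one, one_mul]
  map_mul' g h := by
    ext f x
    show f ((g * h)⁻¹ * x) = f (h⁻¹ * (g⁻¹ * x))
    rw [mul_inv_rev, mul_assoc]

theorem funRep_apply (g : G) (f : G → ℂ) (x : G) : funRep G g f x = f (g⁻¹ * x) := rfl

/-- extension by zero as a morphism of representations -/
def extHom : l2Rep S ⟶ Rep.res S.subtype (Rep.of (funRep G)) :=
  Rep.ofHom ⟨(extz S) ∘ₗ (l2 S).subtype, by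
    intro s
    ext f x
    show extz S (reg S s f).1 x = extz S f.1 ((s : G)⁻¹ * x)
    by_cases hx : x ∈ S
    · have hx' : (s : G)⁻¹ * x ∈ S := S.mul_mem (S.inv_mem s.2) hx
      rw [extz_mem S _ hx, extz_mem S _ hx']
      rfl
    · have hx' : (s : G)⁻¹ * x ∉ S := fun h => hx (by
        have := S.mul_mem s.2 h
        rwa [mul_inv_cancel_left] at this)
      rw [extz_not_mem S _ hx, extz_not_mem S _ hx']⟩

/-- the embedding of the induced representation in the functions on `G` -/
def PhiHom : Rep.ind S.subtype (l2Rep S) ⟶ Rep.of (funRep G) :=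
  (Rep.indResHomEquiv S.subtype (l2Rep S) (Rep.of (funRep G))).symm (extHom S)

/-- the induced module -/
abbrev IV : Type := IndV S.subtype (reg S)

/-- the underlying linear map of `PhiHom` -/
def Phi : IV S →ₗ[ℂ] (G → ℂ) := (PhiHom S).hom.toLinearMap

theorem Phi_mk (h : G) (f : l2 S) (x : G) :
    Phi S (IndV.mk S.subtype (reg S) h f) x = extz S f.1 (h * x) := by
  show ((PhiHom S).hom (IndV.mk S.subtype (reg S) h f)) x = _
  simp [PhiHom, extHom, funRep_apply]

theorem Phi_ind (g : G) (v : IV S) (x : G) :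
    Phi S (ind S.subtype (reg S) g v) x = Phi S v (g⁻¹ * x) := by
  have := Rep.hom_comm_apply (PhiHom S) g v
  exact congrFun this x

theorem mk_rel (s : S) (h : G) (f : l2 S) :
    IndV.mk S.subtype (reg S) ((s : G) * h) (reg S s f) = IndV.mk S.subtype (reg S) h f := by
  have h1 := Coinvariants.mk_self_apply
    (Representation.tprod ((leftRegular ℂ G).comp S.subtype) (reg S)) s
    (TensorProduct.tmul ℂ (MonoidAlgebra.single h (1 : ℂ)) f)
  rw [← sub_eq_zero] at h1 ⊢
  rw [← h1]
  simp

/-- functions with finitely many cosets, in coordinates -/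
def Theta : ((G ⧸ S) →₀ l2 S) →ₗ[ℂ] IV S :=
  Finsupp.lsum ℂ (fun q => IndV.mk S.subtype (reg S) (q.out)⁻¹)

theorem Theta_single (q : G ⧸ S) (f : l2 S) :
    Theta S (Finsupp.single q f) = IndV.mk S.subtype (reg S) (q.out)⁻¹ f := by
  simp [Theta]

theorem Theta_surj : Function.Surjective (Theta S) := by
  rw [← LinearMap.range_eq_top]
  have h0 : (LinearMap.range (Theta S)).mkQ = 0 := by
    refine IndV.hom_ext S.subtype (reg S) (fun h => LinearMap.ext fun f => ?_)
    refine (Submodule.Quotient.mk_eq_zero _).2 ?_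
    obtain ⟨s, hs⟩ := QuotientGroup.mk_out_eq_mul S h⁻¹
    refine ⟨Finsupp.single ((h⁻¹ : G) : G ⧸ S) (reg S s⁻¹ f), ?_⟩
    rw [Theta_single, hs, mul_inv_rev, inv_inv]
    exact mk_rel S s⁻¹ h f
  rw [← Submodule.ker_mkQ (LinearMap.range (Theta S)), h0, LinearMap.ker_zero]

theorem out_mem (q : G ⧸ S) (x : G) : (q.out)⁻¹ * x ∈ S ↔ (x : G ⧸ S) = q := by
  rw [← QuotientGroup.eq, QuotientGroup.out_eq']
  exact eq_comm

theorem Phi_Theta (u : (G ⧸ S) →₀ l2 S) (x : G) :
    Phi S (Theta S u) x = (u (x : G ⧸ S)).1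
      ⟨((x : G ⧸ S).out)⁻¹ * x, (out_mem S _ x).2 rfl⟩ := by
  induction u using Finsupp.induction_linear with
  | zero => simp
  | add u v hu hv =>
    rw [map_add, map_add, Pi.add_apply, hu, hv]
    rfl
  | single q f =>
    rw [Theta_single, Phi_mk]
    by_cases hq : (x : G ⧸ S) = q
    · subst hq
      rw [Finsupp.single_eq_same, extz_mem S _ ((out_mem S _ x).2 rfl)]
    · rw [Finsupp.single_eq_of_ne hq, extz_not_mem S _ (fun h => hq ((out_mem S q x).1 h))]
      rfl

theorem Phi_inj (v : IV S) (hv : Phi S v = 0) : v = 0 := by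
  obtain ⟨u, rfl⟩ := Theta_surj S v
  have : u = 0 := by
    ext q s
    have h1 := congrFun hv (q.out * (s : G))
    rw [Phi_Theta] at h1
    have h2 : ((q.out * (s : G) : G) : G ⧸ S) = q := by
      rw [← out_mem S q, inv_mul_cancel_left]
      exact s.2
    simp only [h2, inv_mul_cancel_left] at h1
    exact h1
  rw [this, map_zero]

/-- the values of `Phi` are supported on finitely many cosets -/
theorem Phi_FS (v : IV S) : FS S (Phi S v) := by
  obtain ⟨u, rfl⟩ := Theta_surj S v
  refine u.support.finite_toSet.subset ?_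
  rintro C ⟨x, rfl, hx⟩
  rw [Phi_Theta] at hx
  simp only [Finset.mem_coe, Finsupp.mem_support_iff, ne_eq]
  intro h
  rw [h] at hx
  exact hx rfl

/-- the values of `Phi` are square-summable on cosets -/
theorem Phi_coset (v : IV S) (g : G) : (fun s : S => Phi S v (g * s)) ∈ l2 S := by
  obtain ⟨u, rfl⟩ := Theta_surj S v
  have h2 : ∀ s : S, ((g * (s : G) : G) : G ⧸ S) = (g : G ⧸ S) := fun s => by
    rw [eq_comm, QuotientGroup.eq, inv_mul_cancel_left]
    exact s.2
  let r : S := ⟨((g : G ⧸ S).out)⁻¹ * g, (out_mem S _ g).2 rfl⟩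
  have h3 : (fun s : S => Phi S (Theta S u) (g * s)) = fun s => (u (g : G ⧸ S)).1 (r * s) := by
    funext s
    rw [Phi_Theta]
    simp only [h2]
    refine congrArg _ (Subtype.ext ?_)
    show (g : G ⧸ S).out⁻¹ * (g * (s : G)) = (g : G ⧸ S).out⁻¹ * g * (s : G)
    rw [mul_assoc]
  rw [h3]
  exact (Equiv.mulLeft r).summable_iff (f := fun x => ‖(u (g : G ⧸ S)).1 x‖ ^ 2) |>.2
    (u (g : G ⧸ S)).2

/-- every function that is supported on finitely many cosets and square-summable on the cosets is
a value of `Phi` -/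
theorem Phi_range (ξ : G → ℂ) (h1 : FS S ξ) (h2 : ∀ g : G, (fun s : S => ξ (g * s)) ∈ l2 S) :
    ∃ v : IV S, Phi S v = ξ := by
  classical
  let f : (G ⧸ S) → l2 S := fun q => ⟨fun s => ξ (q.out * s), h2 q.out⟩
  have hf : (Function.support f).Finite := by
    refine h1.subset ?_
    intro q hq
    by_contra hne
    apply hq
    ext s
    show ξ (q.out * s) = 0
    by_contra h0
    refine hne ⟨q.out * s, ?_, h0⟩
    rw [← out_mem S q, inv_mul_cancel_left]
    exact s.2
  refine ⟨Theta S (Finsupp.ofSupportFinite f hf), ?_⟩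
  funext x
  rw [Phi_Theta]
  show ξ ((x : G ⧸ S).out * (((x : G ⧸ S).out)⁻¹ * x)) = ξ x
  rw [mul_inv_cancel_left]

/-- all values of `Phi` are square-summable -/
theorem Phi_l2 (v : IV S) : Phi S v ∈ l2 G := by
  obtain ⟨u, rfl⟩ := Theta_surj S v
  induction u using Finsupp.induction_linear with
  | zero => simp
  | add u v hu hv =>
    rw [map_add, map_add]
    exact (l2 G).add_mem hu hv
  | single q f =>
    rw [mem_l2]
    have h1 : Summable fun s : S => ‖f.1 s‖ ^ 2 := f.2
    have hinj : Function.Injective (fun s : S => q.out * (s : G)) := by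
      intro s t hst
      exact Subtype.ext (mul_left_cancel hst)
    rw [← hinj.summable_iff]
    · convert h1 using 2 with s
      show ‖Phi S (Theta S (Finsupp.single q f)) (q.out * s)‖ ^ 2 = _
      rw [Theta_single, Phi_mk, inv_mul_cancel_left, extz_mem S _ s.2]
    · intro x hx
      rw [Theta_single, Phi_mk, extz_not_mem S]
      · simp
      · intro h
        exact hx ⟨⟨_, h⟩, by simp⟩

end

end Pool.Agent.Y343.LB
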